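import Pool.Agent.KS6_70.Fan.Basic

/-! A star-shaped plane continuum whose nondegenerate subcontinua `C` are arcwise connected, satisfy
(S), and have a dense arcwise connected set of local separating points, and a connected dense subset
of it that contains no arc at all. -/

namespace Pool.Agent.Results.MP_a3a891_gt.NoArcAtAll

open Set Topology Filter Pool.Agent.KS6_70.Fan

/-- Condition (S) for a subset `C` of the plane: the set `localSep C` of its local separating points
is not the union of countably many pairwise disjoint subsets of `C`, each closed in `C` and each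
different from `C`. -/
def CondS (C : Set (ℝ × ℝ)) : Prop :=
  ∀ (I : Type) [Countable I] (F : I → Set (ℝ × ℝ)),
    (∀ i, F i ⊆ C ∧ (∃ K : Set (ℝ × ℝ), IsClosed K ∧ F i = K ∩ C) ∧ F i ≠ C) →
    Pairwise (fun i j => Disjoint (F i) (F j)) → localSep C ≠ ⋃ i, F i

/-- The strong form of (S): `localSep C` is not even contained in a union of countably many pairwise
disjoint closed proper subsets of `C`. -/
def StrongS (C : Set (ℝ × ℝ)) : Prop :=
  ∀ (I : Type) [Countable I] (F : I → Set (ℝ × ℝ)),
    (∀ i, IsClosed (F i) ∧ F i ⊆ C ∧ F i ≠ C) →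
    Pairwise (fun i j => Disjoint (F i) (F j)) → ¬ localSep C ⊆ ⋃ i, F i

/-- Any two distinct points of `S` are the endpoints of an arc contained in `S`. -/
def ArcwiseConn (S : Set (ℝ × ℝ)) : Prop :=
  ∀ p ∈ S, ∀ q ∈ S, p ≠ q → ∃ f : unitInterval → ℝ × ℝ, Continuous f ∧ Function.Injective f ∧
    f 0 = p ∧ f 1 = q ∧ range f ⊆ S

theorem one_piece {I : Type} [Countable I] {F : I → Set (ℝ × ℝ)} (hF : ∀ i, IsClosed (F i))
    (hd : Pairwise (fun i j => Disjoint (F i) (F j))) {f : unitInterval → ℝ × ℝ}
    (hf : Continuous f) (hcov : range f ⊆ ⋃ i, F i) : ∃ i, f 0 ∈ F i ∧ f 1 ∈ F i := by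
  have hg : Continuous fun t : ℝ => f (projIcc 0 1 zero_le_one t) := hf.comp continuous_projIcc
  obtain ⟨i, hi⟩ := sierpinski (Y := ℝ) (fun i => (fun t : ℝ => f (projIcc 0 1 zero_le_one t)) ⁻¹' F i)
    (fun i => (hF i).preimage hg) (fun i j hij => (hd hij).preimage _) (by
      refine eq_univ_iff_forall.2 fun t => ?_
      obtain ⟨i, hi⟩ := mem_iUnion.1 (hcov ⟨projIcc 0 1 zero_le_one t, rfl⟩)
      exact mem_iUnion.2 ⟨i, hi⟩)
  refine ⟨i, ?_, ?_⟩
  · have h : (0 : ℝ) ∈ (fun t : ℝ => f (projIcc 0 1 zero_le_one t)) ⁻¹' F i := by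
      rw [hi]; exact mem_univ _
    have e : projIcc (0:ℝ) 1 zero_le_one 0 = (0 : unitInterval) := projIcc_left _
    rw [mem_preimage, e] at h
    exact h
  · have h : (1 : ℝ) ∈ (fun t : ℝ => f (projIcc 0 1 zero_le_one t)) ⁻¹' F i := by
      rw [hi]; exact mem_univ _
    have e : projIcc (0:ℝ) 1 zero_le_one 1 = (1 : unitInterval) := projIcc_right _
    rw [mem_preimage, e] at h
    exact h

theorem localSep_sub (C : Set (ℝ × ℝ)) : localSep C ⊆ C := fun _ h => h.1

/-- There is a compact connected star-shaped (so contractible) subset `X` of the plane such that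
every nondegenerate subcontinuum `C` of `X` satisfies (S) and its strong form, is arcwise connected, and has a dense and
arcwise connected set of local separating points, although `X` has a dense connected subset `A`,
with more than one point, which contains no arc at all and in fact becomes totally disconnected
when one point is removed. -/
theorem result :
    ∃ X : Set (ℝ × ℝ), IsCompact X ∧ IsConnected X ∧ StarConvex ℝ 0 X ∧
      (∀ C ⊆ X, IsCompact C → IsConnected C → C.Nontrivial →
        CondS C ∧ StrongS C ∧ ArcwiseConn C ∧ ArcwiseConn (localSep C) ∧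
        C ⊆ closure (localSep C)) ∧
      ∃ A ⊆ X, IsConnected A ∧ A.Nontrivial ∧ X ⊆ closure A ∧
        (∃ v ∈ A, IsTotallyDisconnected (A \ {v})) ∧
        ∀ f : unitInterval → ℝ × ℝ, Continuous f → Function.Injective f → ¬ range f ⊆ A := by
  have : CompactSpace cantorSet := isCompact_iff_compactSpace.1 isCompact_cantorSet
  obtain ⟨E, hEc, hEd⟩ := TopologicalSpace.exists_countable_dense cantorSet
  have hne : Nonempty cantorSet := ⟨⟨0, zero_mem_cantorSet⟩⟩
  have hEn : E.Nonempty := hEd.nonempty
  have hkk := kk_connected hEc hEd hEn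
  have hfan : IsConnected fan := hkk.subset_closure (kk_sub E) (fan_sub_closure_kk E)
  refine ⟨fan, isCompact_fan, hfan, starConvex_fan, ?_, kk E, kk_sub E, hkk, ?_,
    fan_sub_closure_kk E, ⟨0, zero_mem_kk hEn, kk_tot E⟩, fun f => no_arc (kk_tot E) f⟩
  · intro C hC hCc hCconn hnt
    have hcl := hCc.isClosed
    have harc := fun {p q} => arc (p := p) (q := q) hC hcl hCconn.isPreconnected
    have h1 : ArcwiseConn C := by
      intro p hp q hq hpq
      obtain ⟨f, a1, a2, a3, a4, a5⟩ := harc hp hq hpq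
      refine ⟨f, a1, a2, a3, a4, ?_⟩
      rintro _ ⟨u, rfl⟩
      by_cases hu0 : u = 0
      · rw [hu0, a3]; exact hp
      by_cases hu1 : u = 1
      · rw [hu1, a4]; exact hq
      exact (a5 u hu0 hu1).1
    have h2 : ArcwiseConn (localSep C) := by
      intro p hp q hq hpq
      obtain ⟨f, a1, a2, a3, a4, a5⟩ := harc hp.1 hq.1 hpq
      refine ⟨f, a1, a2, a3, a4, ?_⟩
      rintro _ ⟨u, rfl⟩
      by_cases hu0 : u = 0
      · rw [hu0, a3]; exact hp
      by_cases hu1 : u = 1
      · rw [hu1, a4]; exact hq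
      exact a5 u hu0 hu1
    have h3 : C ⊆ closure (localSep C) := by
      intro p hp
      obtain ⟨q, hq, hqp⟩ := hnt.exists_ne p
      obtain ⟨f, a1, a2, a3, a4, a5⟩ := harc hp hq hqp.symm
      have hg : Continuous fun t : ℝ => f (projIcc 0 1 zero_le_one t) := a1.comp continuous_projIcc
      have h0 : (0:ℝ) ∈ closure (Ioo (0:ℝ) 1) := by
        rw [closure_Ioo zero_ne_one]; exact ⟨le_rfl, zero_le_one⟩
      have h4 := image_closure_subset_closure_image hg (mem_image_of_mem _ h0)
      have e : projIcc (0:ℝ) 1 zero_le_one 0 = (0 : unitInterval) := projIcc_left _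
      rw [e, a3] at h4
      refine closure_mono ?_ h4
      rintro _ ⟨t, ht, rfl⟩
      refine a5 _ ?_ ?_
      · rw [projIcc_of_mem zero_le_one ⟨ht.1.le, ht.2.le⟩]
        exact fun h => ht.1.ne' (congrArg Subtype.val h)
      · rw [projIcc_of_mem zero_le_one ⟨ht.1.le, ht.2.le⟩]
        exact fun h => ht.2.ne (congrArg Subtype.val h)
    suffices hS : StrongS C by
      refine ⟨?_, hS, h1, h2, h3⟩
      intro I _ F hF hd hL
      refine hS I F (fun i => ⟨?_, (hF i).1, (hF i).2.2⟩) hd hL.le
      obtain ⟨K, hK, hKF⟩ := (hF i).2.1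
      rw [hKF]
      exact hK.inter hcl
    intro I _ F hF hd hL
    have hFc : ∀ i, IsClosed (F i) := fun i => (hF i).1
    obtain ⟨p, hp⟩ := hnt.nonempty
    obtain ⟨m, hm⟩ : (localSep C).Nonempty := closure_nonempty_iff.1 ⟨p, h3 hp⟩
    obtain ⟨i, hi⟩ := mem_iUnion.1 (hL hm)
    have hall : localSep C ⊆ F i := by
      intro y hy
      by_cases hmy : m = y
      · rw [← hmy]; exact hi
      obtain ⟨f, a1, a2, a3, a4, a5⟩ := h2 m hm y hy hmy
      obtain ⟨j, hj0, hj1⟩ := one_piece hFc hd a1 (a5.trans hL)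
      rw [a3] at hj0
      rw [a4] at hj1
      have : j = i := by
        by_contra hji
        exact disjoint_left.1 (hd hji) hj0 hi
      rw [← this]
      exact hj1
    exact (hF i).2.2 ((hF i).2.1.antisymm (h3.trans (closure_minimal hall (hFc i))))
  · -- the set `A` has more than one point
    obtain ⟨e, he⟩ := hEn
    refine ⟨0, zero_mem_kk ⟨e, he⟩, pt e 1, ⟨e, 1, ⟨zero_le_one, le_rfl⟩, rfl,
      fun _ => ⟨1, by simp⟩, fun _ => he⟩, fun h => ?_⟩
    have := congrArg Prod.snd h
    simp [pt] at this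

end Pool.Agent.Results.MP_a3a891_gt.NoArcAtAll
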